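import Pool.Agent.R344.SP.L

/-! Multiplicative functions along the trajectories of the `3x+d` maps, all odd `d` prime to three. -/

set_option autoImplicit false

namespace Pool.Agent.R105.CZ

open Finset Pool.Agent.H376R2.MR Pool.Agent.H970R2.X Pool.Agent.H426R3.CL
open Pool.Agent.H499R2.CO (Tz)
open Pool.Agent.R344.SP

/-- the last integer `≤ i` which is congruent to `a` modulo `D` -/
def lst (D a i : ℕ) : ℤ := (i : ℤ) - ((i : ℤ) - a) % D

theorem lst_self {D a i : ℕ} (h : (D : ℤ) ∣ (i : ℤ) - a) : lst D a i = i := by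
  unfold lst
  rw [Int.emod_eq_zero_of_dvd h, sub_zero]

theorem lst_succ {D a i : ℕ} (hD : 1 ≤ D) (h : ¬ (D : ℤ) ∣ ((i + 1 : ℕ) : ℤ) - a) :
    lst D a (i + 1) = lst D a i := by
  unfold lst
  have hD' : (0 : ℤ) < D := by exact_mod_cast hD
  have h1 := Int.emod_nonneg ((i : ℤ) - a) hD'.ne'
  have h2 := Int.emod_lt_of_pos ((i : ℤ) - a) hD'
  have h3 : ((i : ℤ) - a) % D + 1 ≠ D := by
    intro h4
    apply h
    rw [Int.dvd_iff_emod_eq_zero]
    have h5 := Int.emod_add_mul_ediv ((i : ℤ) - a) D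
    have h6 : ((i + 1 : ℕ) : ℤ) - a = D * (((i : ℤ) - a) / D + 1) := by
      push_cast; linarith
    rw [h6, Int.mul_emod_right]
  have h4 : (((i + 1 : ℕ) : ℤ) - a) % D = ((i : ℤ) - a) % D + 1 := by
    have h5 := Int.emod_add_mul_ediv ((i : ℤ) - a) D
    have h6 : ((i + 1 : ℕ) : ℤ) - a = (((i : ℤ) - a) % D + 1) + D * (((i : ℤ) - a) / D) := by
      push_cast; linarith
    rw [h6, Int.add_mul_emod_self_left, Int.emod_eq_of_lt (by linarith) (by omega)]
  rw [h4]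
  push_cast
  ring

theorem lst_prev {D a i : ℕ} (hD : 1 ≤ D) (h : (D : ℤ) ∣ ((i + 1 : ℕ) : ℤ) - a) :
    lst D a i = ((i + 1 : ℕ) : ℤ) - D := by
  unfold lst
  have hD' : (0 : ℤ) < D := by exact_mod_cast hD
  obtain ⟨c, hc⟩ := h
  have h6 : (i : ℤ) - a = (D - 1) + D * (c - 1) := by
    push_cast at hc; linarith
  rw [h6, Int.add_mul_emod_self_left, Int.emod_eq_of_lt (by linarith) (by omega)]
  push_cast
  ring

open scoped Classical in
theorem rare_shift' {d : ℤ} (hodd : d % 2 = 1) {δ : ℝ} (hδ : 0 < δ) : ∃ k₁ N₀ : ℕ, ∀ f : ℤ → ℝ,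
    (∀ x y, (Tz d)^[k₁] x = (Tz d)^[k₁] y → f x = f y) → ∀ a N : ℕ, N₀ ≤ N →
      (((Icc 1 N).filter (fun i : ℕ => f (lst d.natAbs a i) ≠ f (lst d.natAbs a (i + 1)))).card : ℝ)
        ≤ δ * N := by
  have hD1 : 1 ≤ d.natAbs := by
    rw [Nat.one_le_iff_ne_zero, Int.natAbs_ne_zero]
    intro h; rw [h] at hodd; norm_num at hodd
  obtain ⟨h, hh⟩ : ∃ h : ℤ, d * h = -(d.natAbs : ℤ) := by
    rcases Int.natAbs_eq d with h1 | h1
    · exact ⟨-1, by rw [← h1]; ring⟩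
    · exact ⟨1, by rw [← h1]; ring⟩
  obtain ⟨k₁, hk₁⟩ := shift_close hodd h (η := δ / 2) (by positivity)
  set B : ℕ := 2 ^ k₁ with hB
  set N₂ : ℕ := 4 * B + 2 with hN₂
  obtain ⟨N₀, hN₀⟩ := exists_nat_ge (4 * ((N₂ : ℝ) + 1) / δ + 3)
  refine ⟨k₁, N₀, fun f hf a N hN => ?_⟩
  set A : ℕ → ℝ := fun N => (((Icc 1 N).filter
    (fun i : ℕ => f ((i : ℤ) - d.natAbs) ≠ f (i : ℤ))).card : ℝ) with hA
  have hAle : ∀ N, A N ≤ N := by
    intro N
    rw [hA]; dsimp only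
    have := card_filter_le (Icc 1 N) (fun i : ℕ => f ((i : ℤ) - d.natAbs) ≠ f (i : ℤ))
    rw [Nat.card_Icc, Nat.add_sub_cancel] at this
    exact_mod_cast this
  have hstep : ∀ N, A N ≤ A (N / 2) + δ / 2 * ((N + 1) / 2 + B) := by
    intro N
    obtain ⟨X, hX⟩ : ∃ X : ℝ, X = ((N : ℝ) + 1) / 2 := ⟨_, rfl⟩
    have hX0 : 0 ≤ X := by rw [hX]; positivity
    have h1 := hk₁ k₁ le_rfl f hf 0 0 hX0
    rw [pow_zero, div_one] at h1
    have h2 : (Icc 1 N).filter (fun i : ℕ => f ((i : ℤ) - d.natAbs) ≠ f (i : ℤ))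
        ⊆ (Icc 1 (N / 2)).filter (fun i : ℕ => f ((i : ℤ) - d.natAbs) ≠ f (i : ℤ))
          ∪ ((cl X (2 * X) 0 1 0).filter (fun x => f (x + d * h) ≠ f x)).image Int.toNat := by
      intro i hi
      rw [mem_filter, mem_Icc] at hi
      rw [mem_union, mem_filter, mem_Icc, mem_image]
      by_cases h : i ≤ N / 2
      · exact Or.inl ⟨⟨hi.1.1, h⟩, hi.2⟩
      · right
        refine ⟨(i : ℤ), ?_, Int.toNat_natCast i⟩
        rw [mem_filter, mem_cl, hh]
        refine ⟨⟨⟨?_, ?_⟩, by simp⟩, ?_⟩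
        · rw [hX, div_le_iff₀ (by norm_num)]
          have : N + 1 ≤ i * 2 := by omega
          have h3 : ((N + 1 : ℕ) : ℝ) ≤ ((i * 2 : ℕ) : ℝ) := by exact_mod_cast this
          push_cast at h3
          push_cast
          exact h3
        · have : i < N + 1 := by omega
          have h3 : (i : ℝ) < ((N + 1 : ℕ) : ℝ) := by exact_mod_cast this
          push_cast at h3
          push_cast
          rw [hX]
          linarith
        · exact hi.2
    have h3 := card_le_card h2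
    have h4 := card_union_le ((Icc 1 (N / 2)).filter (fun i : ℕ => f ((i : ℤ) - d.natAbs) ≠ f (i : ℤ)))
      (((cl X (2 * X) 0 1 0).filter (fun x => f (x + d * h) ≠ f x)).image Int.toNat)
    have h5 := card_image_le (s := (cl X (2 * X) 0 1 0).filter (fun x => f (x + d * h) ≠ f x))
      (f := Int.toNat)
    have h6 : A N ≤ A (N / 2) + (((cl X (2 * X) 0 1 0).filter
            (fun x => f (x + d * h) ≠ f x)).card : ℝ) := by
      rw [hA]; dsimp only
      exact_mod_cast (h3.trans h4).trans (Nat.add_le_add_left h5 _)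
    have h7 : ((B : ℕ) : ℝ) = 2 ^ k₁ := by rw [hB]; push_cast; rfl
    rw [h7, ← hX]
    linarith
  have hind : ∀ N : ℕ, A N ≤ 3 / 4 * δ * N + N₂ := by
    intro N
    induction N using Nat.strong_induction_on with
    | _ N ih =>
      by_cases hN2 : N < N₂
      · have h1 := hAle N
        have h2 : (N : ℝ) ≤ N₂ := by exact_mod_cast hN2.le
        have h3 : 0 ≤ 3 / 4 * δ * N := by positivity
        linarith
      · push Not at hN2
        have h1 := ih (N / 2) (by omega)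
        have h2 := hstep N
        have h3 : ((N / 2 : ℕ) : ℝ) ≤ N / 2 := by
          have := @Nat.cast_div_le ℝ _ _ _ N 2
          simpa using this
        have h4 : (4 : ℝ) * B + 2 ≤ N := by exact_mod_cast hN2
        have h5 : ((N : ℝ) + 1) / 2 + B ≤ 3 / 4 * N := by linarith
        have h6 : δ / 2 * (((N : ℝ) + 1) / 2 + B) ≤ δ / 2 * (3 / 4 * N) :=
          mul_le_mul_of_nonneg_left h5 (by positivity)
        have h7 : 3 / 4 * δ * ((N / 2 : ℕ) : ℝ) ≤ 3 / 4 * δ * (N / 2) :=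
          mul_le_mul_of_nonneg_left h3 (by positivity)
        linarith
  have hsub : (((Icc 1 N).filter
      (fun i : ℕ => f (lst d.natAbs a i) ≠ f (lst d.natAbs a (i + 1)))).card : ℝ) ≤ A (N + 1) := by
    rw [hA]; dsimp only
    have : ((Icc 1 N).filter
        (fun i : ℕ => f (lst d.natAbs a i) ≠ f (lst d.natAbs a (i + 1)))).card
        ≤ ((Icc 1 (N + 1)).filter (fun i : ℕ => f ((i : ℤ) - d.natAbs) ≠ f (i : ℤ))).card := by
      apply card_le_card_of_injOn (fun i => i + 1)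
      · intro i hi
        rw [mem_coe, mem_filter, mem_Icc] at hi
        rw [mem_coe, mem_filter, mem_Icc]
        dsimp only
        refine ⟨by omega, ?_⟩
        have hdv : ((d.natAbs : ℕ) : ℤ) ∣ ((i + 1 : ℕ) : ℤ) - a := by
          by_contra hnd
          apply hi.2
          rw [lst_succ hD1 hnd]
        have h1 := lst_prev hD1 hdv
        have h2 := lst_self hdv
        rw [← h1]
        intro h3
        apply hi.2
        rw [h3, h2]
      · intro i _ j _ hij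
        simpa using hij
    exact_mod_cast this
  have h1 := hind (N + 1)
  have h2 : 4 * ((N₂ : ℝ) + 1) / δ + 3 ≤ N := hN₀.trans (by exact_mod_cast hN)
  have h2' : 4 * ((N₂ : ℝ) + 1) / δ ≤ N - 3 := by linarith
  rw [div_le_iff₀ hδ] at h2'
  push_cast at h1
  have h3 : A (N + 1) ≤ δ * N := by nlinarith
  exact hsub.trans h3

theorem orth_mult' {d : ℤ} (hodd : d % 2 = 1) {G : ℕ → ℤ}
    (hG : ∀ q : ℕ, 0 < q → ∀ a, SmallAvg (fun n => if n % q = a % q then G n else 0))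
    (M : ℕ) (hM : 1 ≤ M) (m : ℕ) {ε : ℝ} (hε : 0 < ε) : ∃ (k₀ : ℕ) (X₀ : ℝ), ∀ w : ℤ → ℝ,
      (∀ x, |w x| ≤ 1) → (∀ x, w (x + M) = w x) → Orth d (fun x => w x * G x.natAbs) ε m k₀ X₀ := by
  classical
  have hD1 : 1 ≤ d.natAbs := by
    rw [Nat.one_le_iff_ne_zero, Int.natAbs_ne_zero]
    intro h; rw [h] at hodd; norm_num at hodd
  obtain ⟨D, hD⟩ : ∃ D : ℕ, D = d.natAbs := ⟨_, rfl⟩
  rw [← hD] at hD1
  set q : ℕ := M * (3 ^ m * D) with hq
  have hq0 : 0 < q := by positivity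
  have hqR : (0 : ℝ) < q := by exact_mod_cast hq0
  have h3m : (0 : ℝ) < 3 ^ m := by positivity
  set ε₂ : ℝ := ε / (3 * q * 3 ^ m) with hε₂
  have hε₂0 : 0 < ε₂ := by positivity
  choose δ hδ hblk using fun a : ℕ => block_unif (hG q hq0 a) hε₂0
  obtain ⟨δ', hδ'0, hδ'⟩ := min_pos δ hδ q
  obtain ⟨k₁, N₀, hrare⟩ := rare_shift' hodd hδ'0
  rw [← hD] at hrare
  choose N₁ hN₁ using fun a : ℕ => hblk a N₀
  set N₂ : ℕ := ∑ a ∈ range q, N₁ a with hN₂
  have hN₁₂ : ∀ a < q, N₁ a ≤ N₂ := fun a ha =>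
    single_le_sum (f := N₁) (fun _ _ => Nat.zero_le _) (mem_range.2 ha)
  refine ⟨k₁, N₂ + 1, fun w hw hper f hf hcl X hX b => ?_⟩
  have hX1 : 1 ≤ X := by
    have : (0 : ℝ) ≤ N₂ := by positivity
    linarith
  set N : ℕ := ⌈2 * X⌉₊ - 1 with hN
  have hc1 : 1 ≤ ⌈2 * X⌉₊ := Nat.one_le_iff_ne_zero.2 (Nat.ceil_pos.2 (by linarith)).ne'
  have hNX : (N : ℝ) ≤ 2 * X := by
    have h1 := Nat.ceil_lt_add_one (by linarith : 0 ≤ 2 * X)
    have h2 : ((N + 1 : ℕ) : ℝ) = (⌈2 * X⌉₊ : ℕ) := by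
      rw [hN, Nat.sub_add_cancel hc1]
    push_cast at h2
    linarith
  have hNN : N₂ ≤ N := by
    have h1 : 2 * X ≤ ⌈2 * X⌉₊ := Nat.le_ceil _
    have h2 : ((N₂ + 1 : ℕ) : ℝ) ≤ (⌈2 * X⌉₊ : ℕ) := by push_cast; linarith
    have h3 : N₂ + 1 ≤ ⌈2 * X⌉₊ := by exact_mod_cast h2
    omega
  set c : ℕ → ℝ := fun a => if (3 : ℤ) ^ m ∣ 1 * (a : ℤ) - b then w a else 0 with hc
  have hc1 : ∀ a, |c a| ≤ 1 := by
    intro a
    rw [hc]; dsimp only
    split_ifs
    · exact hw _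
    · simp
  have hcper : ∀ n : ℕ, c n = c (n % q) := by
    intro n
    have h1 : (n : ℤ) = ((n % q : ℕ) : ℤ) + M * ((3 ^ m * (D * (n / q)) : ℕ) : ℤ) := by
      have h2 : n = n % q + M * (3 ^ m * (D * (n / q))) := by
        rw [← mul_assoc (3 ^ m), ← mul_assoc, ← hq]; exact (Nat.mod_add_div n q).symm
      exact_mod_cast h2
    rw [hc]; dsimp only
    have h2 : w (n : ℤ) = w ((n % q : ℕ) : ℤ) := by
      rw [h1]; exact per_mul hper _ _
    have h3 : (3 : ℤ) ^ m ∣ 1 * (n : ℤ) - b ↔ (3 : ℤ) ^ m ∣ 1 * ((n % q : ℕ) : ℤ) - b := by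
      have h4 : 1 * (n : ℤ) - b = (1 * ((n % q : ℕ) : ℤ) - b)
          + 3 ^ m * (M * (D * ((n / q : ℕ) : ℤ))) := by
        have := h1
        push_cast at this ⊢
        linarith
      rw [h4]
      exact (dvd_add_left (Dvd.intro _ rfl))
    simp only [h2, h3]
  -- reduction to the natural numbers
  have e1 : ∑ x ∈ cl X (2 * X) m 1 b, (w x * G x.natAbs) * f x
      = ∑ n ∈ Ioc (N / 2) N, c n * (G n : ℝ) * f (n : ℤ) := by
    have h1 : ∑ n ∈ Ioc (N / 2) N, c n * (G n : ℝ) * f (n : ℤ)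
        = ∑ n ∈ (Ioc (N / 2) N).filter (fun n : ℕ => (3 : ℤ) ^ m ∣ 1 * (n : ℤ) - b),
          w n * (G n : ℝ) * f (n : ℤ) := by
      rw [sum_filter]
      apply sum_congr rfl
      intro n _
      rw [hc]; dsimp only
      split_ifs <;> ring
    rw [h1]
    apply sum_nbij' (fun x : ℤ => x.toNat) (fun n : ℕ => (n : ℤ))
    · intro x hx
      rw [mem_cl] at hx
      obtain ⟨⟨h2, h3⟩, h4⟩ := hx
      have h5 : 0 < x := by
        have : (0 : ℝ) < x := by linarith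
        exact_mod_cast this
      have h6 : (x.toNat : ℤ) = x := Int.toNat_of_nonneg h5.le
      rw [mem_filter, mem_Ioc, h6]
      have h7 : (x.toNat : ℝ) = (x : ℝ) := by exact_mod_cast h6
      have h8 : x.toNat < ⌈2 * X⌉₊ := Nat.lt_ceil.2 (by rw [h7]; exact h3)
      have h9 : ⌈2 * X⌉₊ ≤ 2 * x.toNat := by
        apply Nat.ceil_le.2
        push_cast; rw [h7]; linarith
      exact ⟨by omega, h4⟩
    · intro n hn
      rw [mem_filter, mem_Ioc] at hn
      rw [mem_cl]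
      have h2 : n < ⌈2 * X⌉₊ := by omega
      have h3 : ⌈2 * X⌉₊ ≤ 2 * n := by omega
      have h4 := Nat.lt_ceil.1 h2
      have h5 := Nat.ceil_le.1 h3
      push_cast at h5 ⊢
      exact ⟨⟨by linarith, by linarith⟩, hn.2⟩
    · intro x hx
      rw [mem_cl] at hx
      apply Int.toNat_of_nonneg
      have : (0 : ℝ) < x := by linarith [hx.1.1]
      have : 0 < x := by exact_mod_cast this
      exact this.le
    · intro n _; exact Int.toNat_natCast n
    · intro x hx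
      rw [mem_cl] at hx
      have h5 : 0 < x := by
        have : (0 : ℝ) < x := by linarith [hx.1.1]
        exact_mod_cast this
      have h6 : (x.toNat : ℤ) = x := Int.toNat_of_nonneg h5.le
      have h7 : x.natAbs = x.toNat := by omega
      rw [h6, h7]
  -- decomposition into classes
  have e2 : ∑ n ∈ Ioc (N / 2) N, c n * (G n : ℝ) * f (n : ℤ) = ∑ a ∈ range q, c a *
      ∑ n ∈ Ioc (N / 2) N, (((if n % q = a % q then G n else 0 : ℤ)) : ℝ) * f (lst D a n) := by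
    simp_rw [mul_sum]
    rw [sum_comm]
    apply sum_congr rfl
    intro n _
    rw [sum_eq_single (n % q)]
    · rw [Nat.mod_mod, if_pos rfl, ← hcper, lst_self]
      · ring
      · have h2 : n = n % q + D * (M * 3 ^ m * (n / q)) := by
          have h3 : D * (M * 3 ^ m * (n / q)) = q * (n / q) := by rw [hq]; ring
          rw [h3]; exact (Nat.mod_add_div n q).symm
        have h3 : (n : ℤ) = ((n % q : ℕ) : ℤ) + D * ((M * 3 ^ m * (n / q) : ℕ) : ℤ) := by
          exact_mod_cast h2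
        exact ⟨((M * 3 ^ m * (n / q) : ℕ) : ℤ), by linarith⟩
    · intro a ha hne
      rw [mem_range] at ha
      rw [Nat.mod_eq_of_lt ha, if_neg (fun h => hne h.symm)]; simp
    · intro h
      exact absurd (mem_range.2 (Nat.mod_lt n hq0)) h
  have e3 : ∀ a ∈ range q,
      |∑ n ∈ Ioc (N / 2) N, (((if n % q = a % q then G n else 0 : ℤ)) : ℝ) * f (lst D a n)|
      ≤ ε₂ * N := by
    intro a ha
    rw [mem_range] at ha
    apply hN₁ a N ((hN₁₂ a ha).trans hNN) (fun n => f (lst D a n)) (fun n => hf _)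
    intro N' hN'
    refine (hrare f hcl a N' hN').trans ?_
    exact mul_le_mul_of_nonneg_right (hδ' a ha) (by positivity)
  rw [e1, e2]
  refine (abs_sum_le_sum_abs _ _).trans ?_
  calc ∑ a ∈ range q, |c a * ∑ n ∈ Ioc (N / 2) N,
        (((if n % q = a % q then G n else 0 : ℤ)) : ℝ) * f (lst D a n)|
      ≤ ∑ _a ∈ range q, ε₂ * N := by
        apply sum_le_sum
        intro a ha
        rw [abs_mul]
        calc |c a| * _ ≤ 1 * (ε₂ * N) := mul_le_mul (hc1 a) (e3 a ha) (abs_nonneg _) (by norm_num)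
          _ = _ := one_mul _
    _ = q * (ε₂ * N) := by rw [sum_const, card_range, nsmul_eq_mul]
    _ ≤ q * (ε₂ * (2 * X)) := by
        apply mul_le_mul_of_nonneg_left _ hqR.le
        exact mul_le_mul_of_nonneg_left hNX hε₂0.le
    _ = 2 / 3 * (ε * X / 3 ^ m) := by rw [hε₂]; field_simp
    _ ≤ ε * X / 3 ^ m := by
        have : 0 ≤ ε * X / 3 ^ m := by positivity
        linarith

/-- MULTIPLICATIVE FUNCTIONS ALONG TRAJECTORIES OF THE `3x+d` MAPS -/
theorem mult_core' {d : ℤ} (hodd : d % 2 = 1) (hcop : IsCoprime d 3) {κ : ℝ} (hκ0 : 0 < κ)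
    (hκ : κ * (Real.log 2 - Real.log 3 / 2) < 1) {G : ℕ → ℤ} (hGb : ∀ n, |G n| ≤ 1)
    (hG : ∀ q : ℕ, 0 < q → ∀ a, SmallAvg (fun n => if n % q = a % q then G n else 0))
    (M : ℕ) (hM : 1 ≤ M) {ε : ℝ} (hε : 0 < ε) :
    ∃ N₀ : ℕ, ∀ N ≥ N₀, ∀ w : ℕ → ℤ → ℝ, (∀ k x, |w k x| ≤ 1) → (∀ k x, w k (x + M) = w k x) →
      ∀ S : Finset ℕ,
        (∀ n ∈ S, 1 ≤ n ∧ n ≤ N ∧ ∃ t : ℕ, (t : ℝ) ≤ κ * Real.log n ∧ ε * Real.log N <
          |∑ k ∈ range t, w k ((Tz d)^[k] n) * G ((Tz d)^[k] n).natAbs|) → (S.card : ℝ) ≤ ε * N := by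
  obtain ⟨ε₁, hε₁, m, hm, hcore⟩ := core hodd hcop hκ0 hκ hε
  obtain ⟨k₀, X₀, hO⟩ := orth_mult' hodd hG M hM m hε₁
  obtain ⟨N₀, hN₀⟩ := hcore k₀ X₀
  refine ⟨N₀, fun N hN w hw hper S hS => ?_⟩
  apply hN₀ N hN (fun s x => w s x * G x.natAbs)
  · intro s x
    rw [abs_mul]
    have h1 : |(G x.natAbs : ℝ)| ≤ 1 := by exact_mod_cast hGb x.natAbs
    calc |w s x| * |(G x.natAbs : ℝ)| ≤ 1 * 1 := mul_le_mul (hw s x) h1 (abs_nonneg _) (by norm_num)
      _ = 1 := one_mul 1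
  · intro s
    exact hO (w s) (hw s) (hper s)
  · intro n hn
    obtain ⟨h1, h2, t, ht, hbig⟩ := hS n hn
    refine ⟨h1, h2, t, ht, hbig.trans_eq ?_⟩
    unfold Zs
    simp only [zero_add]

end Pool.Agent.R105.CZ
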