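import Pool.Agent.R344.SP.Q

/-! Both signs, for the `3x+d` maps. -/

set_option autoImplicit false

namespace Pool.Agent.R105.CZ

open Finset
open Pool.Agent.H499R2.CO (Tz)

theorem Tz_neg {d : ℤ} (hd : d % 2 = 1) (x : ℤ) : Tz d (-x) = -Tz (-d) x := by
  unfold Tz
  split_ifs <;> omega

theorem iter_neg {d : ℤ} (hd : d % 2 = 1) (x : ℤ) : ∀ k : ℕ, (Tz d)^[k] (-x) = -(Tz (-d))^[k] x
  | 0 => rfl
  | k + 1 => by
    rw [Function.iterate_succ_apply', iter_neg hd x k, Tz_neg hd, Function.iterate_succ_apply']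

/-- From the two half lines to the line. -/
theorem both {α : Type*} {κ κ' : ℝ} (hκ : κ ≤ κ') (D : α → ℤ → ℕ → ℝ) {ε : ℝ} (hε : 0 < ε)
    (h : ∀ s : ℤ, (s = 1 ∨ s = -1) → ∃ N₀ : ℕ, ∀ N ≥ N₀, ∀ a : α, ∀ S : Finset ℕ,
      (∀ n ∈ S, 1 ≤ n ∧ n ≤ N ∧ ∃ t : ℕ, (t : ℝ) ≤ κ' * Real.log n ∧
        ε / 4 * Real.log N < D a (s * (n : ℤ)) t) → (S.card : ℝ) ≤ ε / 4 * N) :
    ∃ N₀ : ℕ, ∀ N ≥ N₀, ∀ a : α,
      (Set.ncard {x : ℤ | x ≠ 0 ∧ |x| ≤ N ∧ ∃ t : ℕ, (t : ℝ) ≤ κ * Real.log |(x : ℝ)| ∧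
        ε * Real.log |(x : ℝ)| < D a x t} : ℝ) ≤ ε * N := by
  have key : ∀ s : ℤ, (s = 1 ∨ s = -1) → ∃ N₀ : ℕ, ∀ N ≥ N₀, ∀ a : α,
      (Set.ncard {n : ℕ | 1 ≤ n ∧ n ≤ N ∧ ∃ t : ℕ, (t : ℝ) ≤ κ * Real.log n ∧
        ε / 2 * Real.log n < D a (s * (n : ℤ)) t} : ℝ) ≤ ε / 2 * N := by
    intro s hs
    obtain ⟨N₀, hN₀⟩ := h s hs
    refine Pool.Agent.R344.SP.finish (α := α) hκ (fun a n t => D a (s * (n : ℤ)) t)
      (by positivity) ⟨N₀, fun N hN a S hS => ?_⟩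
    have e : ε / 2 / 2 = ε / 4 := by ring
    rw [e]
    rw [e] at hS
    exact hN₀ N hN a S hS
  obtain ⟨N₁, hN₁⟩ := key 1 (Or.inl rfl)
  obtain ⟨N₂, hN₂⟩ := key (-1) (Or.inr rfl)
  refine ⟨max N₁ N₂, fun N hN a => ?_⟩
  have h1 := hN₁ N (le_trans (le_max_left _ _) hN) a
  have h2 := hN₂ N (le_trans (le_max_right _ _) hN) a
  set B₁ : Set ℕ := {n : ℕ | 1 ≤ n ∧ n ≤ N ∧ ∃ t : ℕ, (t : ℝ) ≤ κ * Real.log n ∧
        ε / 2 * Real.log n < D a (1 * (n : ℤ)) t} with hB₁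
  set B₂ : Set ℕ := {n : ℕ | 1 ≤ n ∧ n ≤ N ∧ ∃ t : ℕ, (t : ℝ) ≤ κ * Real.log n ∧
        ε / 2 * Real.log n < D a (-1 * (n : ℤ)) t} with hB₂
  have hf₁ : B₁.Finite := (Set.finite_Iic N).subset (fun n hn => hn.2.1)
  have hf₂ : B₂.Finite := (Set.finite_Iic N).subset (fun n hn => hn.2.1)
  have hsub : {x : ℤ | x ≠ 0 ∧ |x| ≤ N ∧ ∃ t : ℕ, (t : ℝ) ≤ κ * Real.log |(x : ℝ)| ∧
        ε * Real.log |(x : ℝ)| < D a x t}
      ⊆ (fun n : ℕ => (n : ℤ)) '' B₁ ∪ (fun n : ℕ => -(n : ℤ)) '' B₂ := by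
    rintro n ⟨hn0, hnN, t, ht, hbig⟩
    obtain ⟨m, rfl | rfl⟩ := n.eq_nat_or_neg
    · left
      have hm : 1 ≤ m := by
        rcases Nat.eq_zero_or_pos m with h | h
        · subst h; exact absurd rfl hn0
        · exact h
      have hmR : (1 : ℝ) ≤ m := by exact_mod_cast hm
      have habs : |((m : ℤ) : ℝ)| = (m : ℝ) := by
        rw [Int.cast_natCast, abs_of_nonneg (by positivity)]
      rw [habs] at ht hbig
      refine ⟨m, ⟨hm, ?_, t, ht, ?_⟩, rfl⟩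
      · rw [Nat.abs_cast] at hnN; exact_mod_cast hnN
      · have hlog : 0 ≤ Real.log m := Real.log_nonneg hmR
        rw [one_mul]
        exact lt_of_le_of_lt (by nlinarith) hbig
    · right
      have hm : 1 ≤ m := by
        rcases Nat.eq_zero_or_pos m with h | h
        · subst h; exact absurd rfl hn0
        · exact h
      have hmR : (1 : ℝ) ≤ m := by exact_mod_cast hm
      have habs : |((-(m : ℤ) : ℤ) : ℝ)| = (m : ℝ) := by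
        rw [Int.cast_neg, abs_neg, Int.cast_natCast, abs_of_nonneg (by positivity)]
      rw [habs] at ht hbig
      refine ⟨m, ⟨hm, ?_, t, ht, ?_⟩, rfl⟩
      · rw [abs_neg, Nat.abs_cast] at hnN; exact_mod_cast hnN
      · have hlog : 0 ≤ Real.log m := Real.log_nonneg hmR
        rw [neg_one_mul]
        exact lt_of_le_of_lt (by nlinarith) hbig
  calc (Set.ncard {x : ℤ | x ≠ 0 ∧ |x| ≤ N ∧ ∃ t : ℕ, (t : ℝ) ≤ κ * Real.log |(x : ℝ)| ∧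
        ε * Real.log |(x : ℝ)| < D a x t} : ℝ)
      ≤ (((fun n : ℕ => (n : ℤ)) '' B₁ ∪ (fun n : ℕ => -(n : ℤ)) '' B₂).ncard : ℝ) := by
        exact_mod_cast Set.ncard_le_ncard hsub ((hf₁.image _).union (hf₂.image _))
    _ ≤ (((fun n : ℕ => (n : ℤ)) '' B₁).ncard : ℝ) + (((fun n : ℕ => -(n : ℤ)) '' B₂).ncard : ℝ) := by
        exact_mod_cast Set.ncard_union_le _ _
    _ ≤ (B₁.ncard : ℝ) + (B₂.ncard : ℝ) := by
        have e1 := Set.ncard_image_le (f := fun n : ℕ => (n : ℤ)) hf₁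
        have e2 := Set.ncard_image_le (f := fun n : ℕ => -(n : ℤ)) hf₂
        exact_mod_cast Nat.add_le_add e1 e2
    _ ≤ ε * N := by linarith

theorem cop_neg {d : ℤ} (h : IsCoprime d 3) : IsCoprime (-d) 3 := h.neg_left

theorem cop_of {d : ℤ} (h : ¬ (3 : ℤ) ∣ d) : IsCoprime d 3 := by
  have h1 := (Int.prime_three.coprime_iff_not_dvd (n := d)).2 h
  exact h1.symm

end Pool.Agent.R105.CZ
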