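import Pool.Agent.R344.TH.G
import Pool.Agent.R105.CZ.Signs

/-! Thin sets and the `3x+d` maps, both signs. -/

set_option autoImplicit false

namespace Pool.Agent.R105.CZ

open Finset
open Pool.Agent.H499R2.CO (Tz)
open R344.TH

open scoped Classical in
/-- thin sets are avoided by almost all trajectories of the shortcut map -/
theorem thin_Tz {d : ℤ} (hd : Odd d) (hd3 : IsCoprime d 3) {δ : ℝ} (hδ : 0 < δ) (B : ℕ) :
    ∃ L K : ℝ, 0 < L ∧ 0 < K ∧ ∀ Y : ℝ, 0 < Y → L ≤ Real.log Y → ∀ A : Set ℤ,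
      (∀ X : ℝ, Y ≤ X → ((fA A Y X).card : ℝ) ≤ X * Real.exp (-(Real.log X) ^ δ)) →
      ∀ N : ℕ, (((Icc (1 : ℤ) N).filter (fun n => n ∈ HY d A Y)).card : ℝ)
        ≤ K * N / (Real.log Y) ^ B := by
  have hs0 : 0 < min δ 1 := lt_min hδ one_pos
  have hs1 : min δ 1 ≤ 1 := min_le_right _ _
  have hsδ : min δ 1 ≤ δ := min_le_left _ _
  obtain ⟨l₀, K, hl₀, hK, hH⟩ := HY_count hd hd3 (γ := min δ 1 / 2) (by positivity) (by linarith) B
  refine ⟨max l₀ 1, K, by positivity, hK, fun Y hY hl A hA N => ?_⟩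
  refine hH Y hY ((le_max_left _ _).trans hl) A (fun X hX => (hA X hX).trans ?_) N
  have hX0 : 0 < X := lt_of_lt_of_le hY hX
  have hlX : 1 ≤ Real.log X := ((le_max_right _ _).trans hl).trans (Real.log_le_log hY hX)
  apply mul_le_mul_of_nonneg_left _ hX0.le
  apply Real.exp_le_exp.2
  apply neg_le_neg
  apply Real.rpow_le_rpow_of_exponent_le hlX
  linarith

theorem Tz_pos {d x : ℤ} (hx : 0 < x) (hdx : |d| ≤ x) : 0 < Tz d x := by
  unfold Tz
  have := neg_abs_le d
  split_ifs <;> omega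

/-- an orbit that starts at a positive integer keeps its sign above `Y` -/
theorem keep {d : ℤ} {Y : ℝ} (hY0 : 0 < Y) (hY : |(d : ℝ)| ≤ Y) {x : ℤ} (hx : 0 < x) {k : ℕ}
    (h : ∀ j ≤ k, Y ≤ |(((Tz d)^[j] x : ℤ) : ℝ)|) : ∀ j ≤ k, Y ≤ (((Tz d)^[j] x : ℤ) : ℝ) := by
  have hpos : ∀ j ≤ k, 0 < (Tz d)^[j] x := by
    intro j
    induction j with
    | zero => intro _; exact hx
    | succ j ih =>
      intro hj
      have h1 := ih (by omega)
      have h2 := h j (by omega)
      rw [abs_of_pos (by exact_mod_cast h1)] at h2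
      rw [Function.iterate_succ_apply']
      apply Tz_pos h1
      have h3 : ((|d| : ℤ) : ℝ) ≤ (((Tz d)^[j] x : ℤ) : ℝ) := by
        rw [Int.cast_abs]; linarith
      exact_mod_cast h3
  intro j hj
  have h1 := h j hj
  rwa [abs_of_pos (by exact_mod_cast hpos j hj)] at h1

/-- the orbit of `x` meets `A` before it takes a value of absolute value below `Y` -/
def MeetsZ (d : ℤ) (A : Set ℤ) (Y : ℝ) (x : ℤ) : Prop :=
  ∃ k : ℕ, (Tz d)^[k] x ∈ A ∧ ∀ j ≤ k, Y ≤ |(((Tz d)^[j] x : ℤ) : ℝ)|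

theorem fin_le (P : ℤ → Prop) (N : ℕ) : {x : ℤ | |x| ≤ N ∧ P x}.Finite := by
  apply (Set.finite_Icc (-(N : ℤ)) N).subset
  rintro x ⟨hx, _⟩
  rw [abs_le] at hx
  exact hx

theorem thin_both {d : ℤ} (hd : Odd d) (hd3 : IsCoprime d 3) {δ : ℝ} (hδ : 0 < δ) (B : ℕ) :
    ∃ K : ℝ, 0 < K ∧ ∀ Y : ℝ, 2 ≤ Y → ∀ A : Set ℤ,
      (∀ X : ℝ, Y ≤ X → (Set.ncard {a : ℤ | a ∈ A ∧ Y ≤ |(a : ℝ)| ∧ |(a : ℝ)| ≤ X} : ℝ)
        ≤ X * Real.exp (-(Real.log X) ^ δ)) →
      ∀ N : ℕ, (Set.ncard {x : ℤ | |x| ≤ N ∧ MeetsZ d A Y x} : ℝ) ≤ K * N / (Real.log Y) ^ B := by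
  classical
  have hd' : Odd (-d) := hd.neg
  have hd1 : d % 2 = 1 := Int.odd_iff.1 hd
  obtain ⟨L₁, K₁, hL₁, hK₁, h₁⟩ := thin_Tz hd hd3 hδ B
  obtain ⟨L₂, K₂, hL₂, hK₂, h₂⟩ := thin_Tz hd' (cop_neg hd3) hδ B
  set L : ℝ := max (max L₁ L₂) |(d : ℝ)| with hL
  have hL0 : 0 < L := by rw [hL]; positivity
  refine ⟨K₁ + K₂ + 3 * L ^ B, by positivity, ?_⟩
  intro Y hY A hA N
  have hlog : 0 < Real.log Y := Real.log_pos (by linarith)
  have hN0 : (0 : ℝ) ≤ N := Nat.cast_nonneg N
  have hfinA : ∀ X : ℝ, {a : ℤ | a ∈ A ∧ Y ≤ |(a : ℝ)| ∧ |(a : ℝ)| ≤ X}.Finite := by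
    intro X
    apply (Set.finite_Icc (-⌊X⌋) ⌊X⌋).subset
    rintro x ⟨_, _, hx⟩
    rw [abs_le] at hx
    constructor
    · have h3 : ((-x : ℤ) : ℝ) ≤ X := by push_cast; linarith
      have := Int.le_floor.2 h3
      omega
    · exact Int.le_floor.2 hx.2
  rcases le_or_gt L (Real.log Y) with hc | hc
  · have hdY : |(d : ℝ)| ≤ Y := by
      have h2 : |(d : ℝ)| ≤ Real.log Y := (le_max_right _ _).trans hc
      have h3 := Real.add_one_le_exp (Real.log Y)
      rw [Real.exp_log (by linarith)] at h3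
      linarith
    have hLL : max L₁ L₂ ≤ Real.log Y := (le_max_left _ _).trans hc
    have e1 := h₁ Y (by linarith) ((le_max_left _ _).trans hLL) A (by
      intro X hX
      refine le_trans ?_ (hA X hX)
      rw [Set.ncard_eq_toFinset_card _ (hfinA X)]
      have : fA A Y X ⊆ (hfinA X).toFinset := by
        intro x hx
        rw [mem_fA] at hx
        rw [Set.Finite.mem_toFinset]
        have hx0 : (0 : ℝ) < x := by linarith [hx.1.1]
        refine ⟨hx.2, ?_, ?_⟩
        · rw [abs_of_pos hx0]; exact hx.1.1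
        · rw [abs_of_pos hx0]; exact hx.1.2
      exact_mod_cast card_le_card this) N
    have e2 := h₂ Y (by linarith) ((le_max_right _ _).trans hLL) ((fun a => -a) ⁻¹' A) (by
      intro X hX
      refine le_trans ?_ (hA X hX)
      rw [Set.ncard_eq_toFinset_card _ (hfinA X)]
      have : (fA ((fun a => -a) ⁻¹' A) Y X).image (fun a => -a) ⊆ (hfinA X).toFinset := by
        intro y hy
        rw [mem_image] at hy
        obtain ⟨x, hx, rfl⟩ := hy
        rw [mem_fA] at hx
        rw [Set.Finite.mem_toFinset]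
        have hx0 : (0 : ℝ) < x := by linarith [hx.1.1]
        have h5 : |((-x : ℤ) : ℝ)| = x := by push_cast; rw [abs_neg, abs_of_pos hx0]
        refine ⟨hx.2, ?_, ?_⟩
        · rw [h5]; exact hx.1.1
        · rw [h5]; exact hx.1.2
      have h6 := card_le_card this
      rw [card_image_of_injective _ neg_injective] at h6
      exact_mod_cast h6) N
    have hsub : {x : ℤ | |x| ≤ N ∧ MeetsZ d A Y x}
        ⊆ ((((Icc (1 : ℤ) N).filter (fun n => n ∈ HY d A Y)) ∪
          ((Icc (1 : ℤ) N).filter (fun n => n ∈ HY (-d) ((fun a => -a) ⁻¹' A) Y)).image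
            (fun a => -a) : Finset ℤ) : Set ℤ) := by
      rintro x ⟨hx, k, hk1, hk2⟩
      rw [mem_coe, mem_union]
      rcases lt_trichotomy x 0 with hneg | h0 | hpos
      · right
        rw [mem_image]
        refine ⟨-x, ?_, by ring⟩
        rw [mem_filter, Finset.mem_Icc]
        rw [abs_of_neg hneg] at hx
        have hit : ∀ j, (Tz (-d))^[j] (-x) = -(Tz d)^[j] x := by
          intro j
          have h7 := iter_neg hd1 (-x) j
          rw [neg_neg] at h7
          rw [h7, neg_neg]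
        refine ⟨⟨by omega, hx⟩, k, ?_, ?_⟩
        · change -((Tz (-d))^[k] (-x)) ∈ A
          rw [hit, neg_neg]; exact hk1
        · apply keep (by linarith) _ (by omega)
          · intro j hj
            rw [hit]
            push_cast
            rw [abs_neg]
            exact hk2 j hj
          · push_cast; rw [abs_neg]; exact hdY
      · exfalso
        subst h0
        have h8 := hk2 0 (Nat.zero_le _)
        rw [Function.iterate_zero, id] at h8
        norm_num at h8
        linarith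
      · left
        rw [mem_filter, Finset.mem_Icc]
        rw [abs_of_pos hpos] at hx
        exact ⟨⟨by omega, hx⟩, k, hk1, keep (by linarith) hdY hpos hk2⟩
    have h9 := Set.ncard_le_ncard hsub (finite_toSet _)
    rw [Set.ncard_coe_finset] at h9
    have h10 := h9.trans ((card_union_le _ _).trans (Nat.add_le_add_left card_image_le _))
    have h11 : (Set.ncard {x : ℤ | |x| ≤ N ∧ MeetsZ d A Y x} : ℝ)
        ≤ (((Icc (1 : ℤ) N).filter (fun n => n ∈ HY d A Y)).card : ℝ) +
          (((Icc (1 : ℤ) N).filter (fun n => n ∈ HY (-d) ((fun a => -a) ⁻¹' A) Y)).card : ℝ) := by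
      exact_mod_cast h10
    have h12 : 0 ≤ 3 * L ^ B * N / (Real.log Y) ^ B := by positivity
    calc _ ≤ K₁ * N / (Real.log Y) ^ B + K₂ * N / (Real.log Y) ^ B
          + 3 * L ^ B * N / (Real.log Y) ^ B := by linarith
      _ = _ := by ring
  · have h1 : (Set.ncard {x : ℤ | |x| ≤ N ∧ MeetsZ d A Y x} : ℝ) ≤ 3 * N := by
      have hsub : {x : ℤ | |x| ≤ N ∧ MeetsZ d A Y x}
          ⊆ ((Icc (-(N : ℤ)) (-1) ∪ Icc (1 : ℤ) N : Finset ℤ) : Set ℤ) := by
        rintro x ⟨hx, k, _, hk2⟩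
        rw [mem_coe, mem_union, Finset.mem_Icc, Finset.mem_Icc]
        rw [abs_le] at hx
        rcases lt_trichotomy x 0 with hneg | h0 | hpos
        · left; constructor <;> omega
        · exfalso
          subst h0
          have h8 := hk2 0 (Nat.zero_le _)
          rw [Function.iterate_zero, id] at h8
          norm_num at h8
          linarith
        · right; constructor <;> omega
      have h9 := Set.ncard_le_ncard hsub (finite_toSet _)
      rw [Set.ncard_coe_finset] at h9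
      have h10 := h9.trans (card_union_le _ _)
      rw [Int.card_Icc, Int.card_Icc] at h10
      have h11 : Set.ncard {x : ℤ | |x| ≤ N ∧ MeetsZ d A Y x} ≤ 3 * N := by omega
      exact_mod_cast h11
    refine h1.trans ?_
    rw [le_div_iff₀ (by positivity)]
    have h2 : (Real.log Y) ^ B ≤ L ^ B := pow_le_pow_left₀ hlog.le hc.le B
    have h3 : 3 * (N : ℝ) * (Real.log Y) ^ B ≤ 3 * N * L ^ B :=
      mul_le_mul_of_nonneg_left h2 (by positivity)
    have h4 : 0 ≤ (K₁ + K₂) * N := by positivity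
    linarith

end Pool.Agent.R105.CZ
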