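import Pool.Agent.R344.TH.P
import Pool.Agent.R105.CZ.Thin

/-! Pairs of orbits of the `3x+d` maps, both signs. -/

set_option autoImplicit false

namespace Pool.Agent.R105.CZ

open Finset
open Pool.Agent.H499R2.CO (Tz)
open R344.TH

/-- The orbits of `x` and `x'` have a common term, which both reach before they take a value of
absolute value smaller than `Y`. -/
def MeetB (d : ℤ) (Y : ℝ) (x x' : ℤ) : Prop :=
  ∃ k k' : ℕ, (Tz d)^[k] x = (Tz d)^[k'] x' ∧ (∀ j ≤ k, Y ≤ |(((Tz d)^[j] x : ℤ) : ℝ)|) ∧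
    ∀ j ≤ k', Y ≤ |(((Tz d)^[j] x' : ℤ) : ℝ)|

open scoped Classical in
/-- pairs of positive integers meeting above `Y` -/
noncomputable def PP (d : ℤ) (Y : ℝ) (N : ℕ) : Finset (ℤ × ℤ) :=
  (Finset.Icc (1 : ℤ) N ×ˢ Finset.Icc (1 : ℤ) N).filter (fun p => MeetZ d Y p.1 p.2)

theorem ne_zero {d : ℤ} {Y : ℝ} (hY0 : 0 < Y) {x : ℤ} {k : ℕ}
    (h : ∀ j ≤ k, Y ≤ |(((Tz d)^[j] x : ℤ) : ℝ)|) : x ≠ 0 := by
  rintro rfl
  have h8 := h 0 (Nat.zero_le _)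
  rw [Function.iterate_zero, id] at h8
  norm_num at h8
  linarith

theorem neg_side {d : ℤ} (hd : d % 2 = 1) {Y : ℝ} {x : ℤ} {k : ℕ}
    (h : ∀ j ≤ k, Y ≤ |(((Tz d)^[j] (-x) : ℤ) : ℝ)|) :
    ∀ j ≤ k, Y ≤ |(((Tz (-d))^[j] x : ℤ) : ℝ)| := by
  intro j hj
  have h1 := h j hj
  rw [iter_neg hd, Int.cast_neg, abs_neg] at h1
  exact h1

theorem card_meetB {d : ℤ} (hd : d % 2 = 1) {Y : ℝ} (hY0 : 0 < Y) (hY : |(d : ℝ)| ≤ Y) (N : ℕ) :
    (Set.ncard {p : ℤ × ℤ | |p.1| ≤ N ∧ |p.2| ≤ N ∧ MeetB d Y p.1 p.2} : ℝ)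
      ≤ (PP d Y N).card + (PP (-d) Y N).card := by
  classical
  have hY' : |((-d : ℤ) : ℝ)| ≤ Y := by push_cast; rw [abs_neg]; exact hY
  have hsub : {p : ℤ × ℤ | |p.1| ≤ N ∧ |p.2| ≤ N ∧ MeetB d Y p.1 p.2}
      ⊆ ((PP d Y N ∪ (PP (-d) Y N).image (fun p => (-p.1, -p.2)) : Finset (ℤ × ℤ)) : Set (ℤ × ℤ)) := by
    rintro ⟨x, x'⟩ ⟨h1, h2, k, k', h3, h4, h5⟩
    simp only at h1 h2 h3 h4 h5
    rw [Finset.mem_coe, Finset.mem_union]
    have hx0 := ne_zero hY0 h4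
    have hx0' := ne_zero hY0 h5
    rcases lt_or_gt_of_ne hx0 with hx | hx <;> rcases lt_or_gt_of_ne hx0' with hx' | hx'
    · right
      obtain ⟨y, rfl⟩ : ∃ y, x = -y := ⟨-x, by ring⟩
      obtain ⟨y', rfl⟩ : ∃ y', x' = -y' := ⟨-x', by ring⟩
      rw [Finset.mem_image]
      refine ⟨(y, y'), ?_, rfl⟩
      unfold PP
      rw [Finset.mem_filter, Finset.mem_product, Finset.mem_Icc, Finset.mem_Icc]
      rw [abs_neg] at h1 h2
      have hy0 : 0 < y := by omega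
      have hy0' : 0 < y' := by omega
      rw [abs_of_pos hy0] at h1
      rw [abs_of_pos hy0'] at h2
      refine ⟨⟨⟨by omega, h1⟩, ⟨by omega, h2⟩⟩, k, k', ?_, ?_, ?_⟩
      · rw [iter_neg hd, iter_neg hd, neg_inj] at h3
        exact h3
      · exact keep hY0 hY' hy0 (neg_side hd h4)
      · exact keep hY0 hY' hy0' (neg_side hd h5)
    · exfalso
      obtain ⟨y, rfl⟩ : ∃ y, x = -y := ⟨-x, by ring⟩
      rw [iter_neg hd] at h3
      have h6 := keep hY0 hY' (by omega) (neg_side hd h4) k le_rfl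
      have h7 := keep hY0 hY hx' h5 k' le_rfl
      rw [← h3] at h7
      push_cast at h7
      linarith
    · exfalso
      obtain ⟨y, rfl⟩ : ∃ y, x' = -y := ⟨-x', by ring⟩
      rw [iter_neg hd] at h3
      have h6 := keep hY0 hY' (by omega) (neg_side hd h5) k' le_rfl
      have h7 := keep hY0 hY hx h4 k le_rfl
      rw [h3] at h7
      push_cast at h7
      linarith
    · left
      unfold PP
      rw [Finset.mem_filter, Finset.mem_product, Finset.mem_Icc, Finset.mem_Icc]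
      rw [abs_of_pos hx] at h1
      rw [abs_of_pos hx'] at h2
      exact ⟨⟨⟨by omega, h1⟩, ⟨by omega, h2⟩⟩, k, k', h3, keep hY0 hY hx h4, keep hY0 hY hx' h5⟩
  have h1 := Set.ncard_le_ncard hsub (Finset.finite_toSet _)
  rw [Set.ncard_coe_finset] at h1
  have h2 := h1.trans ((Finset.card_union_le _ _).trans (Nat.add_le_add_left Finset.card_image_le _))
  exact_mod_cast h2

theorem pairs_both {d : ℤ} (hd : Odd d) (hd3 : IsCoprime d 3) (B : ℕ) :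
    ∃ K : ℝ, 0 < K ∧ ∀ Y : ℝ, 2 ≤ Y → ∀ N : ℕ,
      (Set.ncard {p : ℤ × ℤ | |p.1| ≤ N ∧ |p.2| ≤ N ∧ MeetB d Y p.1 p.2} : ℝ)
        ≤ K * (N : ℝ) ^ 2 / (Real.log Y) ^ B := by
  have hd1 : d % 2 = 1 := Int.odd_iff.1 hd
  obtain ⟨l₁, K₁, hl₁, hK₁, h₁⟩ := pairs_count hd hd3 B
  obtain ⟨l₂, K₂, hl₂, hK₂, h₂⟩ := pairs_count hd.neg (cop_neg hd3) B
  set L : ℝ := max (max l₁ l₂) |(d : ℝ)| with hL
  have hL0 : 0 < L := by rw [hL]; positivity
  refine ⟨K₁ + K₂ + 9 * L ^ B, by positivity, ?_⟩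
  intro Y hY N
  have hlog : 0 < Real.log Y := Real.log_pos (by linarith)
  rcases le_or_gt L (Real.log Y) with hc | hc
  · have hdY : |(d : ℝ)| ≤ Y := by
      have h2 : |(d : ℝ)| ≤ Real.log Y := (le_max_right _ _).trans hc
      have h3 := Real.add_one_le_exp (Real.log Y)
      rw [Real.exp_log (by linarith)] at h3
      linarith
    have hcard := card_meetB hd1 (by linarith : 0 < Y) hdY N
    have e1 : ((PP d Y N).card : ℝ) ≤ K₁ * (N : ℝ) ^ 2 / (Real.log Y) ^ B :=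
      h₁ Y (by linarith) ((le_max_left _ _).trans ((le_max_left _ _).trans hc)) N
    have e2 : ((PP (-d) Y N).card : ℝ) ≤ K₂ * (N : ℝ) ^ 2 / (Real.log Y) ^ B :=
      h₂ Y (by linarith) ((le_max_right _ _).trans ((le_max_left _ _).trans hc)) N
    have e9 : 0 ≤ 9 * L ^ B * (N : ℝ) ^ 2 / (Real.log Y) ^ B := by positivity
    calc _ ≤ ((PP d Y N).card : ℝ) + (PP (-d) Y N).card := hcard
      _ ≤ K₁ * (N : ℝ) ^ 2 / (Real.log Y) ^ B + K₂ * (N : ℝ) ^ 2 / (Real.log Y) ^ B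
          + 9 * L ^ B * (N : ℝ) ^ 2 / (Real.log Y) ^ B := by linarith
      _ = _ := by ring
  · rcases Nat.eq_zero_or_pos N with rfl | hN
    · have : {p : ℤ × ℤ | |p.1| ≤ ((0 : ℕ) : ℤ) ∧ |p.2| ≤ ((0 : ℕ) : ℤ) ∧ MeetB d Y p.1 p.2} = ∅ := by
        ext ⟨x, x'⟩
        simp only [Set.mem_ofPred_eq, Set.mem_empty_iff_false, iff_false]
        rintro ⟨h1, _, k, k', _, h4, _⟩
        have := ne_zero (by linarith : 0 < Y) h4
        have h2 : |x| = 0 := le_antisymm (by simpa using h1) (abs_nonneg _)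
        exact this (abs_eq_zero.1 h2)
      rw [this, Set.ncard_empty]
      simp
    have hNR : (1 : ℝ) ≤ N := by exact_mod_cast hN
    have h1 : (Set.ncard {p : ℤ × ℤ | |p.1| ≤ N ∧ |p.2| ≤ N ∧ MeetB d Y p.1 p.2} : ℝ) ≤ 9 * (N : ℝ) ^ 2 := by
      have hsub : {p : ℤ × ℤ | |p.1| ≤ N ∧ |p.2| ≤ N ∧ MeetB d Y p.1 p.2}
          ⊆ ((Icc (-(N : ℤ)) N ×ˢ Icc (-(N : ℤ)) N : Finset (ℤ × ℤ)) : Set (ℤ × ℤ)) := by
        rintro ⟨x, x'⟩ ⟨h1, h2, _⟩
        rw [mem_coe, mem_product, Finset.mem_Icc, Finset.mem_Icc]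
        exact ⟨abs_le.1 h1, abs_le.1 h2⟩
      have h9 := Set.ncard_le_ncard hsub (finite_toSet _)
      rw [Set.ncard_coe_finset, card_product, Int.card_Icc] at h9
      have h10 : ((N : ℤ) + 1 - -(N : ℤ)).toNat = 2 * N + 1 := by omega
      rw [h10] at h9
      have h11 : (Set.ncard {p : ℤ × ℤ | |p.1| ≤ N ∧ |p.2| ≤ N ∧ MeetB d Y p.1 p.2} : ℝ)
          ≤ (2 * N + 1) * (2 * N + 1) := by exact_mod_cast h9
      nlinarith
    rw [le_div_iff₀ (by positivity)]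
    have e3 : (Real.log Y) ^ B ≤ L ^ B := pow_le_pow_left₀ hlog.le hc.le B
    have e4 : 0 ≤ (N : ℝ) ^ 2 := by positivity
    have e5 : 0 ≤ (K₁ + K₂) * (N : ℝ) ^ 2 := by positivity
    calc _ ≤ (9 * (N : ℝ) ^ 2) * L ^ B := by
          apply mul_le_mul h1 e3 (by positivity) (by positivity)
      _ ≤ _ := by linarith

end Pool.Agent.R105.CZ
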